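import Pool.Agent.H28.WN.FRdef
import Pool.Agent.H6.WN.APZ

/-!
# White noise (MP_c59857_nt): the last pointwise step
-/

set_option autoImplicit false

open Filter Topology Finset

namespace Pool.Agent.H28.WN

open Pool.Agent.H6.N4D (ee ee_int ee_add norm_ee)

/-! ## Compactness -/

/-- the sum of cosines, without conditions on the parameters -/
noncomputable def cs' {R : ℕ} (p : (Fin R → ℝ) × (Fin R → ℝ)) (k : ℕ) : ℝ :=
  ∑ j, p.1 j * Real.cos (2 * Real.pi * (k * p.2 j))

theorem cs'_cont {R : ℕ} (k : ℕ) :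
    Continuous fun p : (Fin R → ℝ) × (Fin R → ℝ) => cs' p k := by
  unfold cs'
  refine continuous_finsetSum _ fun j _ => ?_
  refine ((continuous_apply j).comp continuous_fst).mul (Real.continuous_cos.comp ?_)
  exact continuous_const.mul (continuous_const.mul ((continuous_apply j).comp continuous_snd))

theorem cos_fract (k : ℕ) (x : ℝ) :
    Real.cos (2 * Real.pi * (k * Int.fract x)) = Real.cos (2 * Real.pi * (k * x)) := by
  have h : 2 * Real.pi * (k * Int.fract x) =
      2 * Real.pi * (k * x) - ((k * ⌊x⌋ : ℤ) : ℝ) * (2 * Real.pi) := by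
    unfold Int.fract
    push_cast
    ring
  rw [h, Real.cos_sub_int_mul_two_pi]

/-- **Compactness.** If the distance is at most `η` for every `H`, then one choice of the
parameters is good for all `k` -/
theorem cpt {r : ℕ → ℝ} {R : ℕ} {η : ℝ} (hη : 0 < η) (h : ∀ H, FR R H r ≤ η) :
    ∃ p : Par R, ∀ k, 1 ≤ k → |r k - cs p k| ≤ 2 * η := by
  set K : Set ((Fin R → ℝ) × (Fin R → ℝ)) :=
    (Set.univ.pi fun _ => Set.Icc (0 : ℝ) 2) ×ˢ (Set.univ.pi fun _ => Set.Icc (0 : ℝ) 1) with hK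
  have hKc : IsCompact K := by
    refine IsCompact.prod ?_ ?_
    · exact isCompact_univ_pi fun _ => isCompact_Icc
    · exact isCompact_univ_pi fun _ => isCompact_Icc
  set C : ℕ → Set ((Fin R → ℝ) × (Fin R → ℝ)) := fun H =>
    K ∩ ({p | ∑ j, p.1 j ≤ 2} ∩ {p | ∀ k ∈ Icc 1 H, |r k - cs' p k| ≤ 2 * η}) with hC
  have hcl : ∀ H, IsClosed ({p : (Fin R → ℝ) × (Fin R → ℝ) | ∑ j, p.1 j ≤ 2} ∩
      {p | ∀ k ∈ Icc 1 H, |r k - cs' p k| ≤ 2 * η}) := by
    intro H
    refine IsClosed.inter ?_ ?_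
    · exact isClosed_le (continuous_finsetSum _ fun j _ => (continuous_apply j).comp continuous_fst)
        continuous_const
    · have : {p : (Fin R → ℝ) × (Fin R → ℝ) | ∀ k ∈ Icc 1 H, |r k - cs' p k| ≤ 2 * η} =
          ⋂ k ∈ Icc 1 H, {p | |r k - cs' p k| ≤ 2 * η} := by
        ext p
        simp only [Set.mem_ofPred_eq, Set.mem_iInter]
      rw [this]
      refine isClosed_biInter fun k _ => ?_
      exact isClosed_le ((continuous_const.sub (cs'_cont k)).abs) continuous_const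
  have hCc : ∀ H, IsCompact (C H) := fun H => hKc.inter_right (hcl H)
  have hne : ∀ H, (C H).Nonempty := by
    intro H
    obtain ⟨p, hp⟩ := exists_of_FR_lt (show FR R H r < 2 * η by linarith [h H])
    refine ⟨(p.1.1, fun j => Int.fract (p.1.2 j)), ⟨?_, ?_⟩, p.2.2, ?_⟩
    · intro j _
      refine ⟨p.2.1 j, ?_⟩
      have h1 := single_le_sum (f := p.1.1) (fun i _ => p.2.1 i) (mem_univ j)
      exact h1.trans p.2.2
    · intro j _
      exact ⟨Int.fract_nonneg _, (Int.fract_lt_one _).le⟩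
    · intro k hk
      rw [mem_Icc] at hk
      have h1 : cs' (p.1.1, fun j => Int.fract (p.1.2 j)) k = cs p k := by
        unfold cs' cs
        exact Finset.sum_congr rfl fun j _ => by rw [cos_fract]
      rw [h1]
      exact (hp k hk.1 hk.2).le
  have hdec : ∀ H, C (H + 1) ⊆ C H := by
    intro H p hp
    refine ⟨hp.1, hp.2.1, fun k hk => hp.2.2 k ?_⟩
    rw [mem_Icc] at hk ⊢
    omega
  obtain ⟨p, hp⟩ := IsCompact.nonempty_iInter_of_sequence_nonempty_isCompact_isClosed C hdec hne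
    (hCc 0) fun H => (hCc H).isClosed
  rw [Set.mem_iInter] at hp
  refine ⟨⟨p, fun j => ((hp 0).1.1 j (Set.mem_univ j)).1, (hp 0).2.1⟩, fun k hk => ?_⟩
  exact (hp k).2.2 k (mem_Icc.2 ⟨hk, le_rfl⟩)

/-! ## Trigonometric polynomials -/

/-- finite sums of exponentials -/
def TP (g : ℕ → ℂ) : Prop := ∃ (R : ℕ) (a : ℕ → ℂ) (φ : ℕ → ℝ), ∀ k : ℕ,
  g k = ∑ r ∈ range R, a r * ee (φ r * k)

theorem TP.zero : TP fun _ => 0 := ⟨0, fun _ => 0, fun _ => 0, fun k => by simp⟩

theorem TP.add {g g' : ℕ → ℂ} (hg : TP g) (hg' : TP g') : TP fun k => g k + g' k := by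
  obtain ⟨R, a, φ, h⟩ := hg
  obtain ⟨R', a', φ', h'⟩ := hg'
  refine ⟨R + R', fun r => if r < R then a r else a' (r - R),
    fun r => if r < R then φ r else φ' (r - R), fun k => ?_⟩
  show g k + g' k = _
  rw [h k, h' k, Finset.sum_range_add]
  congr 1
  · refine Finset.sum_congr rfl fun r hr => ?_
    rw [mem_range] at hr
    simp only [if_pos hr]
  · refine Finset.sum_congr rfl fun r _ => ?_
    have h1 : ¬ R + r < R := by omega
    simp only [if_neg h1, Nat.add_sub_cancel_left]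

theorem TP.sum {ι : Type*} (s : Finset ι) {g : ι → ℕ → ℂ} (h : ∀ i ∈ s, TP (g i)) :
    TP fun k => ∑ i ∈ s, g i k := by
  classical
  induction s using Finset.induction_on with
  | empty => simpa using TP.zero
  | insert a s ha ih =>
    have h1 := (h a (mem_insert_self a s)).add (ih fun i hi => h i (mem_insert_of_mem hi))
    simp only [Finset.sum_insert ha]
    exact h1

theorem TP.cos (c x : ℝ) : TP fun k => ((c * Real.cos (2 * Real.pi * (k * x)) : ℝ) : ℂ) := by
  refine ⟨2, fun _ => (c / 2 : ℝ), fun r => if r = 0 then x else -x, fun k => ?_⟩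
  rw [Finset.sum_range_succ, Finset.sum_range_one]
  simp only [if_true, one_ne_zero, if_false]
  unfold ee
  push_cast
  rw [Complex.cos]
  have h1 : (2 * (Real.pi : ℂ) * (x * k)) * Complex.I = 2 * Real.pi * (k * x) * Complex.I := by ring
  have h2 : (2 * (Real.pi : ℂ) * (-x * k)) * Complex.I =
      -(2 * Real.pi * (k * x)) * Complex.I := by ring
  rw [h1, h2]
  ring

/-! ## The last step -/

variable {E : Type*} [NormedAddCommGroup E] [InnerProductSpace ℂ E] [CompleteSpace E]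

/-- GLU. If the correlations of `v` (a sum of cosines and the correlations of `u`, `u` orthogonal
to all eigenvectors) are near to the sums of `R` cosines, then the correlations of `u` vanish -/
theorem glu (U : E →ₗᵢ[ℂ] E) (u : E)
    (hu : ∀ (v : E) (z : ℂ), ‖z‖ = 1 → U v = z • v → inner ℂ v u = 0) {r : ℕ → ℝ} {b θ : ℕ → ℝ}
    (hb : ∀ j, 0 ≤ b j) (hs : Summable b)
    (hr : ∀ h : ℕ, 1 ≤ h → r h = ∑' j, b j * Real.cos (2 * Real.pi * (h * θ j)) +
      (inner ℂ u ((U^[h]) u)).re)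
    (hN : ∀ η : ℝ, 0 < η → ∃ R, ∀ H, FR R H r ≤ η) :
    ∀ k : ℕ, 1 ≤ k → (inner ℂ u ((U^[k]) u)).re = 0 := by
  refine Pool.Agent.H6.WN.apz_re U u hu fun ε hε => ?_
  obtain ⟨R, hR⟩ := hN (ε / 4) (by positivity)
  obtain ⟨p, hp⟩ := cpt (by positivity) hR
  -- truncation
  obtain ⟨N, hN⟩ : ∃ N : ℕ, ∑' j, b (j + N) ≤ ε / 2 := by
    have h1 := tendsto_sum_nat_add b
    exact ((h1.eventually (gt_mem_nhds (show (0 : ℝ) < ε / 2 by positivity))).exists).imp
      fun N h => h.le
  have htr : ∀ k : ℕ, |∑' j, b j * Real.cos (2 * Real.pi * (k * θ j)) -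
      ∑ j ∈ range N, b j * Real.cos (2 * Real.pi * (k * θ j))| ≤ ε / 2 := by
    intro k
    have hbd : ∀ j, |b j * Real.cos (2 * Real.pi * (k * θ j))| ≤ b j := fun j => by
      rw [abs_mul, abs_of_nonneg (hb j)]
      exact mul_le_of_le_one_right (hb j) (Real.abs_cos_le_one _)
    have hsm : Summable fun j => b j * Real.cos (2 * Real.pi * (k * θ j)) :=
      Summable.of_norm_bounded hs fun j => by rw [Real.norm_eq_abs]; exact hbd j
    rw [← hsm.sum_add_tsum_nat_add N, add_sub_cancel_left]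
    have hs' : Summable fun j => b (j + N) := (summable_nat_add_iff N).2 hs
    refine le_trans ?_ hN
    rw [← Real.norm_eq_abs]
    exact tsum_of_norm_bounded hs'.hasSum fun j => by rw [Real.norm_eq_abs]; exact hbd _
  have hTP : TP fun k => ((cs p k : ℝ) : ℂ) +
      ∑ j ∈ range N, (((-b j) * Real.cos (2 * Real.pi * (k * θ j)) : ℝ) : ℂ) := by
    refine TP.add ?_ (TP.sum _ fun j _ => TP.cos _ _)
    have h1 : TP fun k => ∑ j : Fin R,
        ((p.1.1 j * Real.cos (2 * Real.pi * (k * p.1.2 j)) : ℝ) : ℂ) :=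
      TP.sum _ fun j _ => TP.cos _ _
    have h2 : (fun k : ℕ => ((cs p k : ℝ) : ℂ)) = fun k : ℕ => ∑ j : Fin R,
        ((p.1.1 j * Real.cos (2 * Real.pi * (k * p.1.2 j)) : ℝ) : ℂ) := by
      funext k
      unfold cs
      push_cast
      rfl
    rw [h2]
    exact h1
  obtain ⟨R', a, φ, h⟩ := hTP
  refine ⟨R', a, φ, fun k hk => ?_⟩
  rw [← h k]
  have h3 : (((inner ℂ u ((U^[k]) u)).re : ℝ) : ℂ) - (((cs p k : ℝ) : ℂ) +
      ∑ j ∈ range N, (((-b j) * Real.cos (2 * Real.pi * (k * θ j)) : ℝ) : ℂ)) =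
      (((r k - cs p k) - (∑' j, b j * Real.cos (2 * Real.pi * (k * θ j)) -
        ∑ j ∈ range N, b j * Real.cos (2 * Real.pi * (k * θ j))) : ℝ) : ℂ) := by
    rw [hr k hk, ← Complex.ofReal_sum, ← Complex.ofReal_add, ← Complex.ofReal_sub]
    congr 1
    have h4 : ∑ j ∈ range N, -b j * Real.cos (2 * Real.pi * (k * θ j)) =
        -∑ j ∈ range N, b j * Real.cos (2 * Real.pi * (k * θ j)) := by
      rw [← Finset.sum_neg_distrib]
      exact Finset.sum_congr rfl fun j _ => by ring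
    rw [h4]
    ring
  rw [h3, Complex.norm_real, Real.norm_eq_abs]
  refine (abs_sub _ _).trans ?_
  have h5 := hp k hk
  have h6 := htr k
  linarith

end Pool.Agent.H28.WN
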