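import Pool.Agent.H28.WN.Pass

/-!
# White noise (MP_c59857_nt): almost every component is near to the sums of `R` cosines
-/

set_option autoImplicit false

open MeasureTheory ProbabilityTheory Filter Topology Finset
open scoped ENNReal

namespace Pool.Agent.H28.WN

open Pool.Agent.H89.MT (I1 X pt)
open Pool.Agent.H83.W (S S_cont pt_succ)
open Pool.Agent.H24.EG
open Pool.Agent.H24.WT (QGW qgw_mp)
open Pool.Agent.H92.WN (FinU)
open Pool.Agent.H93

/-- the pointwise input: the distances of the dilated correlations of one component tend to zero -/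
def Pnt (r : ℕ → ℝ) : Prop := ∀ ε : ℝ, 0 < ε → ∃ R₀, ∀ R, R₀ ≤ R → ∀ H, ∀ᶠ w in atTop,
  ∑ q ∈ EB.QQ w, 1 / (q : ℝ) * FR R H (fun k => r (q * k)) ≤ ε * ∑ q ∈ EB.QQ w, 1 / (q : ℝ)

/-- the output: for every `η` there is one `R` for all `H` -/
def Nr (r : ℕ → ℝ) : Prop := ∀ η : ℝ, 0 < η → ∃ R, ∀ H, FR R H r ≤ η

/-- the mean over the primes of a level -/
noncomputable def mq (R H w : ℕ) (r : ℕ → ℝ) : ℝ :=
  (∑ q ∈ EB.QQ w, 1 / (q : ℝ) * FR R H (fun k => r (q * k))) / ∑ q ∈ EB.QQ w, 1 / (q : ℝ)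

theorem sQ_nonneg (w : ℕ) : 0 ≤ ∑ q ∈ EB.QQ w, 1 / (q : ℝ) :=
  Finset.sum_nonneg fun _ _ => by positivity

theorem mq_bd {r : ℕ → ℝ} (hr : ∀ k, |r k| ≤ 1) (R H w : ℕ) : 0 ≤ mq R H w r ∧ mq R H w r ≤ 1 := by
  unfold mq
  constructor
  · refine div_nonneg (Finset.sum_nonneg fun q _ => ?_) (sQ_nonneg w)
    exact mul_nonneg (by positivity) (FR_nonneg _ _ _)
  · refine div_le_one_of_le₀ (Finset.sum_le_sum fun q _ => ?_) (sQ_nonneg w)
    exact mul_le_of_le_one_right (by positivity) (FR_le_one fun k => hr _)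

theorem FR_Lp (R H : ℕ) : Lp H (FR R H) := fun r r' => FR_lip R H r r'

theorem FR_meas {Ω : Type*} [MeasurableSpace Ω] (R H : ℕ) {g : ℕ → Ω → ℝ}
    (hg : ∀ k, Measurable (g k)) : Measurable fun x => FR R H (fun k => g k x) :=
  (FR_Lp R H).meas hg

/-- **Almost every component is near to the sums of `R` cosines**, `R` independent of `H` -/
theorem near {u : ℕ → I1} {κ : Measure X} [IsProbabilityMeasure κ] (hκ : QGW u κ)
    (hU : FinU fun n => (u n : ℝ))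
    (hQ : ∃ (s₀ : ℝ) (w₀ : ℕ), 0 < s₀ ∧ ∀ w : ℕ, w₀ ≤ w → s₀ ≤ ∑ q ∈ EB.QQ w, 1 / (q : ℝ))
    (hP : ∀ᵐ x ∂κ, Pnt (rx κ x)) : ∀ᵐ x ∂κ, Nr (rx κ x) := by
  obtain ⟨s₀, w₀, hs₀, hQ⟩ := hQ
  refine fatou_RH κ (fun R H x => FR R H (rx κ x)) (fun R H w x => mq R H w (rx κ x)) 1
    (fun R H => FR_meas R H (rx_meas κ)) (fun R H x => ⟨FR_nonneg _ _ _, FR_le_one (rx_le κ x)⟩)
    (fun R x => FR_mono R _) ?_ (fun R H w x => mq_bd (rx_le κ x) R H w) ?_ ?_
  · intro R H w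
    refine Measurable.div_const (Finset.measurable_fun_sum _ fun q _ => Measurable.const_mul ?_ _) _
    exact FR_meas R H (g := fun k x => rx κ x (q * k)) fun k => rx_meas κ _
  · intro R H W₀ ε hε
    have hFi : ∀ q, Integrable (fun x => FR R H (fun k => rx κ x (q * k))) κ := fun q =>
      int_bd κ (FR_meas R H (g := fun k x => rx κ x (q * k)) fun k => rx_meas κ _)
        fun x => ⟨FR_nonneg _ _ _, FR_le_one fun k => rx_le κ x _⟩
    obtain ⟨w, hw, h⟩ := E2 hκ hU H (max W₀ w₀) (B := 1) (ε := ε * s₀) (by positivity)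
      (FR_Lp R H) (fun r hr => by
        rw [abs_of_nonneg (FR_nonneg _ _ _)]
        exact FR_le_one hr)
    refine ⟨w, (le_max_left _ _).trans hw, ?_⟩
    have hs := hQ w ((le_max_right _ _).trans hw)
    have hs0 : 0 < ∑ q ∈ EB.QQ w, 1 / (q : ℝ) := hs₀.trans_le hs
    have h1 : ∫ x, mq R H w (rx κ x) ∂κ =
        (∑ q ∈ EB.QQ w, 1 / (q : ℝ) * ∫ x, FR R H (fun k => rx κ x (q * k)) ∂κ) /
          ∑ q ∈ EB.QQ w, 1 / (q : ℝ) := by
      unfold mq
      rw [integral_div, integral_finsetSum _ fun q _ => (hFi q).const_mul _]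
      congr 1
      exact Finset.sum_congr rfl fun q _ => integral_const_mul _ _
    rw [h1, ← sub_le_iff_le_add, le_div_iff₀ hs0, sub_mul]
    rw [← Finset.sum_mul, mul_comm] at h
    have h2 : ε * s₀ ≤ ε * ∑ q ∈ EB.QQ w, 1 / (q : ℝ) := mul_le_mul_of_nonneg_left hs hε.le
    linarith
  · filter_upwards [hP] with x hx ε hε
    obtain ⟨R₀, h⟩ := hx ε hε
    refine ⟨R₀, fun R hR H => ?_⟩
    filter_upwards [h R hR H] with w hw
    unfold mq
    exact div_le_of_le_mul₀ (sQ_nonneg w) hε.le hw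

end Pool.Agent.H28.WN
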