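import Pool.Agent.H87.QP.Defs

/-!
# White noise (MP_c59857_nt): the distance of a sequence to the sums of `R` cosines
-/

set_option autoImplicit false

namespace Pool.Agent.H28.WN

open Finset
open Pool.Agent.H87.QP (mx le_mx mx_le_of_nonneg mx_nonneg)

/-- the parameters: `R` weights with sum at most `2` and `R` frequencies -/
def Par (R : ℕ) : Type :=
  {p : (Fin R → ℝ) × (Fin R → ℝ) // (∀ j, 0 ≤ p.1 j) ∧ ∑ j, p.1 j ≤ 2}

/-- the sum of cosines -/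
noncomputable def cs {R : ℕ} (p : Par R) (k : ℕ) : ℝ :=
  ∑ j, p.1.1 j * Real.cos (2 * Real.pi * (k * p.1.2 j))

/-- the distance of `r 1, …, r H` to the sums of `R` cosines -/
noncomputable def FR (R H : ℕ) (r : ℕ → ℝ) : ℝ := ⨅ p : Par R, mx H (fun k => |r k - cs p k|)

instance (R : ℕ) : Nonempty (Par R) := ⟨⟨(fun _ => 0, fun _ => 0), fun _ => le_refl _, by simp⟩⟩

theorem FR_bdd (R H : ℕ) (r : ℕ → ℝ) :
    BddBelow (Set.range fun p : Par R => mx H (fun k => |r k - cs p k|)) :=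
  ⟨0, by rintro _ ⟨p, rfl⟩; exact mx_nonneg H fun _ => abs_nonneg _⟩

theorem FR_le {R H : ℕ} (r : ℕ → ℝ) (p : Par R) : FR R H r ≤ mx H (fun k => |r k - cs p k|) :=
  ciInf_le (FR_bdd R H r) p

theorem FR_le_of {R H : ℕ} {r : ℕ → ℝ} (p : Par R) {e : ℝ} (he : 0 ≤ e)
    (h : ∀ k, 1 ≤ k → k ≤ H → |r k - cs p k| ≤ e) : FR R H r ≤ e :=
  (FR_le r p).trans (mx_le_of_nonneg he h)

theorem FR_nonneg (R H : ℕ) (r : ℕ → ℝ) : 0 ≤ FR R H r :=
  le_ciInf fun _ => mx_nonneg H fun _ => abs_nonneg _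

theorem exists_of_FR_lt {R H : ℕ} {r : ℕ → ℝ} {e : ℝ} (h : FR R H r < e) :
    ∃ p : Par R, ∀ k, 1 ≤ k → k ≤ H → |r k - cs p k| < e := by
  obtain ⟨p, hp⟩ := exists_lt_of_ciInf_lt h
  exact ⟨p, fun k h1 h2 => (le_mx (fun k => |r k - cs p k|) h1 h2).trans_lt hp⟩

theorem FR_le_one {R H : ℕ} {r : ℕ → ℝ} (hr : ∀ k, |r k| ≤ 1) : FR R H r ≤ 1 := by
  refine FR_le_of ⟨(fun _ => 0, fun _ => 0), fun _ => le_refl _, by simp⟩ zero_le_one
    fun k _ _ => ?_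
  have : cs (⟨(fun _ => 0, fun _ => 0), fun _ => le_refl _, by simp⟩ : Par R) k = 0 := by
    unfold cs
    simp
  rw [this, sub_zero]
  exact hr k

theorem FR_lip_le (R H : ℕ) (r r' : ℕ → ℝ) :
    FR R H r ≤ FR R H r' + ∑ k ∈ Icc 1 H, |r k - r' k| := by
  rw [← sub_le_iff_le_add]
  refine le_ciInf fun p => ?_
  rw [sub_le_iff_le_add]
  refine FR_le_of p (add_nonneg (mx_nonneg H fun _ => abs_nonneg _)
    (sum_nonneg fun _ _ => abs_nonneg _)) fun k h1 h2 => ?_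
  have h3 := le_mx (fun k => |r' k - cs p k|) h1 h2
  have h4 : |r k - r' k| ≤ ∑ k ∈ Icc 1 H, |r k - r' k| :=
    single_le_sum (f := fun k => |r k - r' k|) (fun _ _ => abs_nonneg _) (mem_Icc.2 ⟨h1, h2⟩)
  have h5 : |r k - cs p k| ≤ |r k - r' k| + |r' k - cs p k| := by
    have := abs_add_le (r k - r' k) (r' k - cs p k)
    rwa [sub_add_sub_cancel] at this
  linarith

theorem FR_lip (R H : ℕ) (r r' : ℕ → ℝ) :
    |FR R H r - FR R H r'| ≤ ∑ k ∈ Icc 1 H, |r k - r' k| := by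
  have h1 := FR_lip_le R H r r'
  have h2 := FR_lip_le R H r' r
  have h3 : ∑ k ∈ Icc 1 H, |r' k - r k| = ∑ k ∈ Icc 1 H, |r k - r' k| :=
    sum_congr rfl fun k _ => abs_sub_comm _ _
  rw [h3] at h2
  rw [abs_le]
  constructor <;> linarith

theorem FR_mono (R : ℕ) (r : ℕ → ℝ) : Monotone fun H => FR R H r := by
  intro H H' h
  refine le_ciInf fun p => ?_
  refine FR_le_of p (mx_nonneg H' fun _ => abs_nonneg _) fun k h1 h2 => ?_
  exact le_mx (fun k => |r k - cs p k|) h1 (h2.trans h)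

end Pool.Agent.H28.WN
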