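import Pool.Agent.H28.WN.Near
import Pool.Agent.H28.WN.Glu
import Pool.Agent.H56.WN.PNT
import Pool.Agent.H24.WN.Mass

/-!
# White noise (MP_c59857_nt): the continuous part of almost every component is white
-/

set_option autoImplicit false

open MeasureTheory ProbabilityTheory Filter Topology Finset
open scoped ENNReal

namespace Pool.Agent.H28.WN

open Pool.Agent.H89.MT (I1 X pt)
open Pool.Agent.H83.W (S S_cont pt_succ)
open Pool.Agent.H24.EG
open Pool.Agent.H24.WT (QGW qgw_mp)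
open Pool.Agent.H24.WN (cp Uc norm_Uc y0 inner_y0 lp_com com Spec Far W white)
open Pool.Agent.H92.WN (FinU)
open Pool.Agent.H93

/-- the last pointwise step for continuous linear maps -/
theorem glu' {E : Type*} [NormedAddCommGroup E] [InnerProductSpace ℂ E] [CompleteSpace E]
    (U : E →L[ℂ] E) (hU : ∀ v, ‖U v‖ = ‖v‖) (u : E)
    (hu : ∀ (z : ℂ) (v : E), ‖z‖ = 1 → U v = z • v → inner ℂ v u = 0) {r : ℕ → ℝ} {b θ : ℕ → ℝ}
    (hb : ∀ j, 0 ≤ b j) (hs : Summable b)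
    (hr : ∀ h : ℕ, 1 ≤ h → r h = ∑' j, b j * Real.cos (2 * Real.pi * (h * θ j)) +
      (inner ℂ u ((U^[h]) u)).re)
    (hN : ∀ η : ℝ, 0 < η → ∃ R, ∀ H, FR R H r ≤ η) :
    ∀ k : ℕ, 1 ≤ k → (inner ℂ u ((U^[k]) u)).re = 0 := by
  let V : E →ₗᵢ[ℂ] E := ⟨U.toLinearMap, hU⟩
  exact glu V u (fun v z hz hv => hu z v hz hv) hb hs hr hN

/-- the correlations of a component as inner products -/
theorem re_inner (κ : Measure X) [IsProbabilityMeasure κ] (x : X)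
    (hS : MeasurePreserving S (comp κ x) (comp κ x)) [IsProbabilityMeasure (comp κ x)] (n : ℕ) :
    (inner ℂ (y0 (comp κ x)) ((Uc hS)^[n] (y0 (comp κ x)))).re = rx κ x n := by
  rw [inner_y0, Complex.ofReal_re]
  rfl

theorem norm_y0_le (κ : Measure X) [IsProbabilityMeasure κ] (x : X)
    (hS : MeasurePreserving S (comp κ x) (comp κ x)) [IsProbabilityMeasure (comp κ x)] :
    ‖y0 (comp κ x)‖ ≤ 1 := by
  have h1 := re_inner κ x hS 0
  simp only [Function.iterate_zero, id_eq] at h1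
  have h2 : (inner ℂ (y0 (comp κ x)) (y0 (comp κ x))).re = ‖y0 (comp κ x)‖ ^ 2 := by
    rw [inner_self_eq_norm_sq_to_K]
    norm_cast
  rw [h2] at h1
  have h3 := (abs_le.1 (rx_le κ x 0)).2
  rw [← h1] at h3
  have h4 : ‖y0 (comp κ x)‖ ^ 2 ≤ 1 ^ 2 := by simpa using h3
  exact (sq_le_sq₀ (norm_nonneg _) zero_le_one).1 h4

/-- the pointwise input holds for almost every component -/
theorem pnt_ae (κ : Measure X) [IsProbabilityMeasure κ] (hS : MeasurePreserving S κ κ) :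
    ∀ᵐ x ∂κ, Pnt (rx κ x) := by
  filter_upwards [comp_mp κ hS] with x hx ε hε
  have hP : IsProbabilityMeasure (comp κ x) := by unfold comp; infer_instance
  obtain ⟨R₀, h⟩ := Pool.Agent.H56.WN.pnt (Uc hx) (norm_Uc hx) (y0 (comp κ x))
    (norm_y0_le κ x hx) ε hε
  refine ⟨R₀, fun R hR H => ?_⟩
  have h1 := h R hR H
  simp only [re_inner] at h1
  exact h1

/-- **The continuous part of almost every component is white noise** -/
theorem h0_of {u : ℕ → I1} {κ : Measure X} [IsProbabilityMeasure κ] (hκ : QGW u κ)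
    (hU : FinU fun n => (u n : ℝ))
    (hQ : ∃ (s₀ : ℝ) (w₀ : ℕ), 0 < s₀ ∧ ∀ w : ℕ, w₀ ≤ w → s₀ ≤ ∑ q ∈ EB.QQ w, 1 / (q : ℝ)) :
    ∀ᵐ x ∂κ, ∀ hS : MeasurePreserving S (comp κ x) (comp κ x),
      have : IsProbabilityMeasure (comp κ x) := by unfold comp; infer_instance
      ∀ h : ℕ, 1 ≤ h →
      (inner ℂ (cp (Uc hS) (y0 (comp κ x))) ((Uc hS)^[h] (cp (Uc hS) (y0 (comp κ x))))).re = 0 := by
  filter_upwards [near hκ hU hQ (pnt_ae κ (qgw_mp hκ))] with x hN hS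
  have hP : IsProbabilityMeasure (comp κ x) := by unfold comp; infer_instance
  obtain ⟨b, θ, hb0, hb, -, h⟩ := lp_com hS
  obtain ⟨hu, -, -⟩ := com (Uc hS) (norm_Uc hS) (y0 (comp κ x))
  refine glu' (Uc hS) (norm_Uc hS) (cp (Uc hS) (y0 (comp κ x))) hu hb0 hb (r := rx κ x) (θ := θ)
    (fun m _ => ?_) hN
  have h1 := (h m).tsum_eq
  have h2 : ∑' j, b j * Real.cos (2 * Real.pi * (m * θ j)) =
      ∑' j, b j * Real.cos (2 * Real.pi * θ j * m) :=
    tsum_congr fun j => by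
      congr 2
      ring
  rw [h2, h1]
  unfold rx
  exact (sub_add_cancel _ _).symm

/-- **White noise**, with the density as a Borel function -/
theorem white_of {u : ℕ → I1} {κ : Measure X} [IsProbabilityMeasure κ] (hκ : QGW u κ)
    (hU : FinU fun n => (u n : ℝ))
    (hQ : ∃ (s₀ : ℝ) (w₀ : ℕ), 0 < s₀ ∧ ∀ w : ℕ, w₀ ≤ w → s₀ ≤ ∑ q ∈ EB.QQ w, 1 / (q : ℝ)) :
    (∀ᵐ x ∂κ, Spec (comp κ x) (W κ x)) ∧
    ∀ (c : ℝ) (G : X → ℝ), Measurable G → (∀ x, 0 ≤ G x ∧ G x ≤ 1) → c ≤ ∫ x, G x ∂κ →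
      (∀ᵐ x ∂κ, Far (comp κ x) (G x)) → c ≤ ∫ x, W κ x ∂κ :=
  white κ (qgw_mp hκ) (h0_of hκ hU hQ)

end Pool.Agent.H28.WN
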