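import Pool.Agent.H24.RZ.Erg
import Pool.Agent.H50.SS.MEP

/-!
# White noise (MP_c59857_nt): the correlations of the windows tend to the correlations of the
components
-/

set_option autoImplicit false

open MeasureTheory ProbabilityTheory Filter Topology Finset
open scoped ENNReal

namespace Pool.Agent.H28.WN

open Pool.Agent.H89.MT (I1 X pt)
open Pool.Agent.H83.W (S S_cont pt_succ)
open Pool.Agent.H24.EG
open Pool.Agent.H50.SS (av ph0 Zc ae_Zc ph0_of_mem ph0_eq av_succ Zc_inv ph0_inv)

/-- the correlation of the window -/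
noncomputable def rT (T h : ℕ) (x : X) : ℝ :=
  (∑ m ∈ Icc 1 T, (x (m : ℤ) : ℝ) * (x ((m : ℤ) + h) : ℝ)) / T

/-- the correlation of the component -/
noncomputable def rx (κ : Measure X) [IsProbabilityMeasure κ] (x : X) (h : ℕ) : ℝ :=
  ∫ y, (y 0 : ℝ) * (y (h : ℤ) : ℝ) ∂comp κ x

/-- the function `x 0 * x h` -/
noncomputable def fF (h : ℕ) (x : X) : ℝ := (x 0 : ℝ) * (x (h : ℤ) : ℝ)

theorem fF_cont (h : ℕ) : Continuous (fF h) :=
  (continuous_subtype_val.comp (continuous_apply (0 : ℤ))).mul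
    (continuous_subtype_val.comp (continuous_apply (h : ℤ)))

theorem fF_le (h : ℕ) (x : X) : |fF h x| ≤ 1 := by
  unfold fF
  rw [abs_mul]
  exact mul_le_one₀ (abs_x x _) (abs_nonneg _) (abs_x x _)

theorem rT_cont (T h : ℕ) : Continuous (rT T h) := by
  unfold rT
  refine Continuous.div_const (continuous_finsetSum _ fun m _ => ?_) _
  exact (continuous_subtype_val.comp (continuous_apply (m : ℤ))).mul
    (continuous_subtype_val.comp (continuous_apply ((m : ℤ) + h)))

theorem rT_le (T h : ℕ) (x : X) : |rT T h x| ≤ 1 := by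
  unfold rT
  rw [abs_div, Nat.abs_cast]
  rcases Nat.eq_zero_or_pos T with hT | hT
  · subst hT; simp
  · have hN : (0 : ℝ) < T := by exact_mod_cast hT
    rw [div_le_one hN]
    refine (Finset.abs_sum_le_sum_abs _ _).trans ?_
    have h1 : ∀ m ∈ Icc 1 T, |(x (m : ℤ) : ℝ) * (x ((m : ℤ) + h) : ℝ)| ≤ 1 := by
      intro m _
      rw [abs_mul]
      exact mul_le_one₀ (abs_x x _) (abs_nonneg _) (abs_x x _)
    refine (Finset.sum_le_sum h1).trans ?_
    simp

theorem rx_eq (κ : Measure X) [IsProbabilityMeasure κ] (x : X) (h : ℕ) :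
    rx κ x h = ∫ y, fF h y ∂comp κ x := rfl

theorem rx_meas (κ : Measure X) [IsProbabilityMeasure κ] (h : ℕ) :
    Measurable fun x => rx κ x h := by
  have h3 := StronglyMeasurable.integral_condExpKernel (μ := κ) (m := IS)
    (fF_cont h).measurable.stronglyMeasurable
  exact (h3.mono IS_le).measurable

theorem rx_le (κ : Measure X) [IsProbabilityMeasure κ] (x : X) (h : ℕ) : |rx κ x h| ≤ 1 := by
  have hP : IsProbabilityMeasure (comp κ x) := by unfold comp; infer_instance
  rw [rx_eq, ← Real.norm_eq_abs]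
  have h1 := norm_integral_le_of_norm_le_const (μ := comp κ x) (f := fF h) (C := 1)
    (Eventually.of_forall fun y => by rw [Real.norm_eq_abs]; exact fF_le h y)
  simpa using h1

theorem rT_tendsto (κ : Measure X) [IsProbabilityMeasure κ] (hS : MeasurePreserving S κ κ)
    (h : ℕ) : ∀ᵐ x ∂κ, Tendsto (fun T => rT T h x) atTop (𝓝 (rx κ x h)) := by
  have hFm : Measurable fun x : X => ((fF h x : ℝ) : ℂ) :=
    Complex.measurable_ofReal.comp (fF_cont h).measurable
  have hFb : ∀ x : X, ‖((fF h x : ℝ) : ℂ)‖ ≤ 1 := fun x => by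
    rw [Complex.norm_real, Real.norm_eq_abs]
    exact fF_le h x
  have hFi : Integrable (fun x : X => ((fF h x : ℝ) : ℂ)) κ :=
    Integrable.of_bound hFm.aestronglyMeasurable 1 (Eventually.of_forall hFb)
  have h1 := ae_Zc (μ := κ) hS hFm hFb
  have h2 := ph0_eq (μ := κ) hS hFm hFb
  have h3 := condExp_ae_eq_integral_condExpKernel (μ := κ) IS_le hFi
  filter_upwards [h1, h2, h3] with x h1 h2 h3
  have h4 : Tendsto (fun M => av S (fun x : X => ((fF h x : ℝ) : ℂ)) M (S x)) atTop
      (𝓝 (ph0 S (fun x : X => ((fF h x : ℝ) : ℂ)) x)) := by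
    have h5 := ph0_of_mem ((Zc_inv hFb x).2 h1)
    rwa [ph0_inv hFb x] at h5
  have h5 : ph0 S (fun x : X => ((fF h x : ℝ) : ℂ)) x = ((rx κ x h : ℝ) : ℂ) := by
    rw [h2]
    refine h3.trans ?_
    rw [rx_eq]
    exact integral_ofReal
  rw [h5] at h4
  have h6 := (Complex.continuous_re.tendsto _).comp h4
  rw [Complex.ofReal_re] at h6
  refine h6.congr fun M => ?_
  simp only [Function.comp_apply]
  rw [av_succ]
  unfold rT fF
  have h7 : ∀ n ∈ Icc 1 M, ((((S^[n] x) 0 : ℝ) * ((S^[n] x) (h : ℤ) : ℝ) : ℝ) : ℂ) =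
      (((x (n : ℤ) : ℝ) * (x ((n : ℤ) + h) : ℝ) : ℝ) : ℂ) := by
    intro n _
    rw [iter_S, iter_S, zero_add, add_comm (h : ℤ) n]
  rw [Finset.sum_congr rfl h7, ← Complex.ofReal_sum, ← Complex.ofReal_natCast,
    ← Complex.ofReal_div, Complex.ofReal_re]

/-- the correlations of the windows tend to the correlations of the components in the mean -/
theorem E1 (κ : Measure X) [IsProbabilityMeasure κ] (hS : MeasurePreserving S κ κ) (h : ℕ) :
    Tendsto (fun T => ∫ x, |rT T h x - rx κ x h| ∂κ) atTop (𝓝 0) := by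
  have h0 : (0 : ℝ) = ∫ _x : X, (0 : ℝ) ∂κ := by simp
  rw [h0]
  refine tendsto_integral_of_dominated_convergence (fun _ => 2) ?_ (integrable_const _) ?_ ?_
  · intro T
    exact (((rT_cont T h).measurable.sub (rx_meas κ h)).abs).aestronglyMeasurable
  · intro T
    refine Eventually.of_forall fun x => ?_
    rw [Real.norm_eq_abs, abs_abs]
    have h1 := abs_sub (rT T h x) (rx κ x h)
    have h2 := rT_le T h x
    have h3 := rx_le κ x h
    linarith
  · filter_upwards [rT_tendsto κ hS h] with x hx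
    have h1 := (hx.sub_const (rx κ x h)).abs
    rwa [sub_self, abs_zero] at h1

end Pool.Agent.H28.WN
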