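import Mathlib

/-!
# White noise (MP_c59857_nt): limits in the level `w`, in `H` and in `R`
-/

set_option autoImplicit false

open MeasureTheory Filter Topology Finset

namespace Pool.Agent.H28.WN

section

variable {Ω : Type*} [MeasurableSpace Ω] (μ : Measure Ω) [IsProbabilityMeasure μ]

theorem int_bd {f : Ω → ℝ} {B : ℝ} (hm : Measurable f) (hf : ∀ x, 0 ≤ f x ∧ f x ≤ B) :
    Integrable f μ := by
  refine Integrable.of_bound hm.aestronglyMeasurable B (Eventually.of_forall fun x => ?_)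
  rw [Real.norm_eq_abs, abs_of_nonneg (hf x).1]
  exact (hf x).2

theorem tend_bd {f : ℕ → Ω → ℝ} {g : Ω → ℝ} {B : ℝ} (hm : ∀ n, Measurable (f n))
    (hf : ∀ n x, 0 ≤ f n x ∧ f n x ≤ B) (h : ∀ᵐ x ∂μ, Tendsto (fun n => f n x) atTop (𝓝 (g x))) :
    Tendsto (fun n => ∫ x, f n x ∂μ) atTop (𝓝 (∫ x, g x ∂μ)) := by
  refine tendsto_integral_of_dominated_convergence (fun _ => B)
    (fun n => (hm n).aestronglyMeasurable) (integrable_const _) (fun n => ?_) h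
  refine Eventually.of_forall fun x => ?_
  rw [Real.norm_eq_abs, abs_of_nonneg (hf n x).1]
  exact (hf n x).2

/-- reverse Fatou for arbitrarily large levels, then limits in `H` and `R` -/
theorem fatou_RH (φ : ℕ → ℕ → Ω → ℝ) (a : ℕ → ℕ → ℕ → Ω → ℝ) (B : ℝ)
    (hφm : ∀ R H, Measurable (φ R H)) (hφ : ∀ R H x, 0 ≤ φ R H x ∧ φ R H x ≤ B)
    (hmono : ∀ R x, Monotone fun H => φ R H x)
    (ham : ∀ R H w, Measurable (a R H w)) (ha : ∀ R H w x, 0 ≤ a R H w x ∧ a R H w x ≤ B)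
    (h1 : ∀ R H W₀ (ε : ℝ), 0 < ε → ∃ w, W₀ ≤ w ∧ ∫ x, φ R H x ∂μ ≤ ∫ x, a R H w x ∂μ + ε)
    (h2 : ∀ᵐ x ∂μ, ∀ ε : ℝ, 0 < ε → ∃ R₀, ∀ R, R₀ ≤ R → ∀ H, ∀ᶠ w in atTop, a R H w x ≤ ε) :
    ∀ᵐ x ∂μ, ∀ η : ℝ, 0 < η → ∃ R, ∀ H, φ R H x ≤ η := by
  -- suprema over the levels
  set N : ℕ → ℕ → ℕ → Ω → ℝ := fun R H W x => ⨆ w : ℕ, a R H (W + w) x with hN
  have hNb : ∀ R H W x, BddAbove (Set.range fun w : ℕ => a R H (W + w) x) := fun R H W x =>
    ⟨B, by rintro _ ⟨w, rfl⟩; exact (ha R H _ x).2⟩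
  have hNm : ∀ R H W, Measurable (N R H W) := fun R H W => Measurable.iSup fun w => ham R H _
  have haN : ∀ R H W w x, W ≤ w → a R H w x ≤ N R H W x := by
    intro R H W w x h
    have := le_ciSup (hNb R H W x) (w - W)
    simp only [Nat.add_sub_cancel' h] at this
    exact this
  have hN0 : ∀ R H W x, 0 ≤ N R H W x ∧ N R H W x ≤ B := fun R H W x =>
    ⟨(ha R H W x).1.trans (haN R H W W x le_rfl), ciSup_le fun w => (ha R H _ x).2⟩
  have hNa : ∀ R H x, Antitone fun W => N R H W x := by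
    intro R H x W W' h
    exact ciSup_le fun w => haN R H W _ x (by omega)
  -- the infimum
  set G : ℕ → ℕ → Ω → ℝ := fun R H x => ⨅ W : ℕ, N R H W x with hG
  have hGb : ∀ R H x, BddBelow (Set.range fun W : ℕ => N R H W x) := fun R H x =>
    ⟨0, by rintro _ ⟨W, rfl⟩; exact (hN0 R H W x).1⟩
  have hGm : ∀ R H, Measurable (G R H) := fun R H => Measurable.iInf fun W => hNm R H W
  have hG0 : ∀ R H x, 0 ≤ G R H x ∧ G R H x ≤ B := fun R H x =>
    ⟨le_ciInf fun W => (hN0 R H W x).1, (ciInf_le (hGb R H x) 0).trans (hN0 R H 0 x).2⟩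
  have hφG : ∀ R H, ∫ x, φ R H x ∂μ ≤ ∫ x, G R H x ∂μ := by
    intro R H
    have hlim : Tendsto (fun W : ℕ => ∫ x, N R H W x ∂μ) atTop (𝓝 (∫ x, G R H x ∂μ)) :=
      tend_bd μ (hNm R H) (hN0 R H) (Eventually.of_forall fun x =>
        tendsto_atTop_ciInf (hNa R H x) (hGb R H x))
    refine ge_of_tendsto' hlim fun W => ?_
    refine le_of_forall_pos_le_add fun ε hε => ?_
    obtain ⟨w, hw, h⟩ := h1 R H W ε hε
    have h3 : ∫ x, a R H w x ∂μ ≤ ∫ x, N R H W x ∂μ :=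
      integral_mono (int_bd μ (ham R H w) (ha R H w)) (int_bd μ (hNm R H W) (hN0 R H W))
        fun x => haN R H W w x hw
    linarith
  -- suprema over `H`
  set GG : ℕ → Ω → ℝ := fun R x => ⨆ H : ℕ, G R H x with hGG
  have hGGb : ∀ R x, BddAbove (Set.range fun H : ℕ => G R H x) := fun R x =>
    ⟨B, by rintro _ ⟨w, rfl⟩; exact (hG0 R _ x).2⟩
  have hGGm : ∀ R, Measurable (GG R) := fun R => Measurable.iSup fun H => hGm R H
  have hGGl : ∀ R H x, G R H x ≤ GG R x := fun R H x => le_ciSup (hGGb R x) H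
  have hGG0 : ∀ R x, 0 ≤ GG R x ∧ GG R x ≤ B := fun R x =>
    ⟨(hG0 R 0 x).1.trans (hGGl R 0 x), ciSup_le fun H => (hG0 R H x).2⟩
  set F : ℕ → Ω → ℝ := fun R x => ⨆ H : ℕ, φ R H x with hF
  have hFb : ∀ R x, BddAbove (Set.range fun H : ℕ => φ R H x) := fun R x =>
    ⟨B, by rintro _ ⟨w, rfl⟩; exact (hφ R _ x).2⟩
  have hFm : ∀ R, Measurable (F R) := fun R => Measurable.iSup fun H => hφm R H
  have hFl : ∀ R H x, φ R H x ≤ F R x := fun R H x => le_ciSup (hFb R x) H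
  have hF0 : ∀ R x, 0 ≤ F R x ∧ F R x ≤ B := fun R x =>
    ⟨(hφ R 0 x).1.trans (hFl R 0 x), ciSup_le fun H => (hφ R H x).2⟩
  have hFG : ∀ R, ∫ x, F R x ∂μ ≤ ∫ x, GG R x ∂μ := by
    intro R
    have hlim : Tendsto (fun H : ℕ => ∫ x, φ R H x ∂μ) atTop (𝓝 (∫ x, F R x ∂μ)) :=
      tend_bd μ (hφm R) (hφ R) (Eventually.of_forall fun x =>
        tendsto_atTop_ciSup (hmono R x) (hFb R x))
    refine le_of_tendsto' hlim fun H => (hφG R H).trans ?_
    exact integral_mono (int_bd μ (hGm R H) (hG0 R H)) (int_bd μ (hGGm R) (hGG0 R))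
      fun x => hGGl R H x
  -- the limit in `R`
  have hlim0 : Tendsto (fun R : ℕ => ∫ x, GG R x ∂μ) atTop (𝓝 0) := by
    have h0 : (0 : ℝ) = ∫ _x : Ω, (0 : ℝ) ∂μ := by simp
    rw [h0]
    refine tend_bd μ hGGm hGG0 ?_
    filter_upwards [h2] with x hx
    rw [Metric.tendsto_atTop]
    intro ε hε
    obtain ⟨R₀, hR₀⟩ := hx (ε / 2) (by linarith)
    refine ⟨R₀, fun R hR => ?_⟩
    rw [Real.dist_eq, sub_zero, abs_of_nonneg (hGG0 R x).1]
    have h3 : GG R x ≤ ε / 2 := by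
      refine ciSup_le fun H => ?_
      obtain ⟨W, hW⟩ := eventually_atTop.1 (hR₀ R hR H)
      exact (ciInf_le (hGb R H x) W).trans (ciSup_le fun w => hW _ (by omega))
    linarith
  -- the infimum over `R`
  set I : Ω → ℝ := fun x => ⨅ R : ℕ, F R x with hI
  have hIb : ∀ x, BddBelow (Set.range fun R : ℕ => F R x) := fun x =>
    ⟨0, by rintro _ ⟨W, rfl⟩; exact (hF0 _ x).1⟩
  have hIm : Measurable I := Measurable.iInf fun R => hFm R
  have hI0 : ∀ x, 0 ≤ I x ∧ I x ≤ B := fun x =>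
    ⟨le_ciInf fun R => (hF0 R x).1, (ciInf_le (hIb x) 0).trans (hF0 0 x).2⟩
  have hIz : ∫ x, I x ∂μ ≤ 0 := by
    refine ge_of_tendsto' hlim0 fun R => le_trans ?_ (hFG R)
    exact integral_mono (int_bd μ hIm hI0) (int_bd μ (hFm R) (hF0 R)) fun x => ciInf_le (hIb x) R
  have hIz' : ∫ x, I x ∂μ = 0 := le_antisymm hIz (integral_nonneg fun x => (hI0 x).1)
  have hIae : I =ᵐ[μ] 0 :=
    (integral_eq_zero_iff_of_nonneg (fun x => (hI0 x).1) (int_bd μ hIm hI0)).1 hIz'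
  filter_upwards [hIae] with x hx η hη
  have h3 : (⨅ R : ℕ, F R x) < η := by
    have : I x = 0 := hx
    have h4 : (⨅ R : ℕ, F R x) = I x := rfl
    rw [h4, this]
    exact hη
  obtain ⟨R, hR⟩ := exists_lt_of_ciInf_lt h3
  exact ⟨R, fun H => (hFl R H x).trans hR.le⟩

end

end Pool.Agent.H28.WN
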