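import Pool.Agent.H28.WN.ErgL
import Pool.Agent.H28.WN.FRdef
import Pool.Agent.H28.WN.Fat
import Pool.Agent.H92.WN.Defs

/-!
# White noise (MP_c59857_nt): from the windows to the components
-/

set_option autoImplicit false

open MeasureTheory ProbabilityTheory Filter Topology Finset
open scoped ENNReal

namespace Pool.Agent.H28.WN

open Pool.Agent.H89.MT (I1 X pt)
open Pool.Agent.H83.W (S S_cont pt_succ)
open Pool.Agent.H24.EG
open Pool.Agent.H24.WT (QGW qgw_mp LL LL_eq sum_Icc_le wn)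
open Pool.Agent.H87.QP (rh)
open Pool.Agent.H92.WN (FinU)
open Pool.Agent.H28.NW (wlg Wn)
open Pool.Agent.H93

/-- Lipschitz functionals of the first `H` correlations -/
def Lp (H : ℕ) (F : (ℕ → ℝ) → ℝ) : Prop := ∀ r r', |F r - F r'| ≤ ∑ k ∈ Icc 1 H, |r k - r' k|

theorem Lp.cont {H : ℕ} {F : (ℕ → ℝ) → ℝ} (hF : Lp H F) : Continuous F := by
  rw [continuous_iff_continuousAt]
  intro r
  unfold ContinuousAt
  rw [tendsto_iff_dist_tendsto_zero]
  have hc : Continuous fun r' : ℕ → ℝ => ∑ k ∈ Icc 1 H, |r' k - r k| :=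
    continuous_finsetSum _ fun k _ => ((continuous_apply k).sub continuous_const).abs
  have hlim := hc.tendsto r
  simp only [sub_self, abs_zero, sum_const_zero] at hlim
  refine squeeze_zero (fun _ => dist_nonneg) (fun r' => ?_) hlim
  rw [Real.dist_eq]
  exact hF r' r

theorem Lp.meas {H : ℕ} {F : (ℕ → ℝ) → ℝ} (hF : Lp H F) {Ω : Type*} [MeasurableSpace Ω]
    {g : ℕ → Ω → ℝ} (hg : ∀ k, Measurable (g k)) : Measurable fun x => F (fun k => g k x) :=
  hF.cont.measurable.comp (measurable_pi_lambda _ hg)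

/-- limits of integrals of Lipschitz functionals -/
theorem Lp.tendsto {H : ℕ} {F : (ℕ → ℝ) → ℝ} (hF : Lp H F) {B : ℝ}
    (hB : ∀ r, (∀ k, |r k| ≤ 1) → |F r| ≤ B) {Ω : Type*} [MeasurableSpace Ω] (μ : Measure Ω)
    [IsProbabilityMeasure μ] {g : ℕ → ℕ → Ω → ℝ} {g' : ℕ → Ω → ℝ}
    (hg : ∀ T k, Measurable (g T k)) (hg' : ∀ k, Measurable (g' k))
    (hg1 : ∀ T k x, |g T k x| ≤ 1) (hg1' : ∀ k x, |g' k x| ≤ 1)
    (h : ∀ k, Tendsto (fun T => ∫ x, |g T k x - g' k x| ∂μ) atTop (𝓝 0)) :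
    Tendsto (fun T => ∫ x, F (fun k => g T k x) ∂μ) atTop (𝓝 (∫ x, F (fun k => g' k x) ∂μ)) := by
  have hi : ∀ T, Integrable (fun x => F (fun k => g T k x)) μ := fun T =>
    Integrable.of_bound (hF.meas (hg T)).aestronglyMeasurable B (Eventually.of_forall fun x => by
      rw [Real.norm_eq_abs]
      exact hB _ fun k => hg1 T k x)
  have hi' : Integrable (fun x => F (fun k => g' k x)) μ :=
    Integrable.of_bound (hF.meas hg').aestronglyMeasurable B (Eventually.of_forall fun x => by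
      rw [Real.norm_eq_abs]
      exact hB _ fun k => hg1' k x)
  have hd : ∀ T k, Integrable (fun x => |g T k x - g' k x|) μ := fun T k =>
    Integrable.of_bound (((hg T k).sub (hg' k)).abs).aestronglyMeasurable 2
      (Eventually.of_forall fun x => by
        rw [Real.norm_eq_abs, abs_abs]
        have h1 := abs_sub (g T k x) (g' k x)
        have h2 := hg1 T k x
        have h3 := hg1' k x
        linarith)
  rw [tendsto_iff_dist_tendsto_zero]
  have hlim : Tendsto (fun T => ∑ k ∈ Icc 1 H, ∫ x, |g T k x - g' k x| ∂μ) atTop (𝓝 0) := by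
    have := tendsto_finsetSum (Icc 1 H) (fun k _ => h k)
    simpa using this
  refine squeeze_zero (fun _ => dist_nonneg) (fun T => ?_) hlim
  rw [Real.dist_eq, ← integral_sub (hi T) hi', ← integral_finsetSum _ fun k _ => hd T k]
  refine (abs_integral_le_integral_abs).trans ?_
  refine integral_mono ((hi T).sub hi').abs (integrable_finsetSum _ fun k _ => hd T k) fun x => ?_
  exact hF _ _

theorem pt_rT (u : ℕ → I1) (T h n : ℕ) :
    rT T h (pt u n) = rh (fun n => (u n : ℝ)) T n h := by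
  unfold rT rh
  congr 1
  have e : ∑ m ∈ Ioc n (n + T), (u m : ℝ) * (u (m + h) : ℝ) =
      ∑ m ∈ Icc 1 T, (u (n + m) : ℝ) * (u (n + m + h) : ℝ) := by
    symm
    refine Finset.sum_bij (fun m _ => n + m) ?_ ?_ ?_ ?_
    · intro m hm
      rw [mem_Icc] at hm
      rw [mem_Ioc]
      omega
    · intro a _ b _ hab
      omega
    · intro m hm
      rw [mem_Ioc] at hm
      exact ⟨m - n, by rw [mem_Icc]; omega, by omega⟩
    · intro m _
      rfl
  rw [e]
  refine Finset.sum_congr rfl fun m hm => ?_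
  rw [mem_Icc] at hm
  have h1 : (pt u n (m : ℤ) : ℝ) = (u (n + m) : ℝ) := by
    unfold pt
    rw [if_pos (by omega)]
    congr 2
  have h2 : (pt u n ((m : ℤ) + h) : ℝ) = (u (n + m + h) : ℝ) := by
    unfold pt
    rw [if_pos (by omega)]
    congr 2
    omega
  rw [h1, h2]

theorem exists_frequently {α : Type*} {l : Filter α} (s : Finset ℕ) {P : ℕ → α → Prop}
    (h : ∃ᶠ k in l, ∃ w ∈ s, P w k) : ∃ w ∈ s, ∃ᶠ k in l, P w k := by
  by_contra hc
  push Not at hc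
  apply h
  have h1 : ∀ w ∈ s, ∀ᶠ k in l, ¬ P w k := fun w hw => hc w hw
  have h2 := (eventually_all_finset s).2 h1
  filter_upwards [h2] with k hk
  rintro ⟨w, hw, hP⟩
  exact hk w hw hP

/-- the weak limit of a functional of the correlations of the windows -/
theorem lim_F {u : ℕ → I1} {κ : Measure X} {Y Z : ℕ → ℕ}
    (hF : ∀ F : C(X, ℝ), Tendsto (fun k => (∑ n ∈ Icc (Y k) (Z k), F (pt u n) / n) /
      Real.log ((Z k : ℝ) / Y k)) atTop (𝓝 (∫ x, F x ∂κ)))
    {H : ℕ} {F : (ℕ → ℝ) → ℝ} (hL : Lp H F) (T q : ℕ) :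
    Tendsto (fun k => (∑ n ∈ Icc (Y k) (Z k),
      F (fun h => rh (fun n => (u n : ℝ)) T n (q * h)) / n) / Real.log ((Z k : ℝ) / Y k)) atTop
      (𝓝 (∫ x, F (fun h => rT T (q * h) x) ∂κ)) := by
  have hc : Continuous fun x : X => F (fun h => rT T (q * h) x) :=
    hL.cont.comp (continuous_pi fun h => rT_cont T (q * h))
  have h1 := hF ⟨_, hc⟩
  simp only [ContinuousMap.coe_mk, pt_rT] at h1
  exact h1

/-- the law of the correlations of the components does not increase under dilation, for Lipschitz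
functionals, at arbitrarily large levels -/
theorem E2 {u : ℕ → I1} {κ : Measure X} [IsProbabilityMeasure κ] (hκ : QGW u κ)
    (hU : FinU fun n => (u n : ℝ)) (H W₀ : ℕ) {B ε : ℝ} (hε : 0 < ε) {F : (ℕ → ℝ) → ℝ}
    (hL : Lp H F) (hB : ∀ r, (∀ k, |r k| ≤ 1) → |F r| ≤ B) :
    ∃ w, W₀ ≤ w ∧ ∑ q ∈ EB.QQ w, 1 / (q : ℝ) * ∫ x, F (fun k => rx κ x k) ∂κ ≤
      ∑ q ∈ EB.QQ w, 1 / (q : ℝ) * ∫ x, F (fun k => rx κ x (q * k)) ∂κ + ε := by
  obtain ⟨W₁, T₀, hfin⟩ := hU H W₀ B ε hε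
  obtain ⟨Y, Z, hYZ, hLt, hF⟩ := hκ.2
  have hS := qgw_mp hκ
  -- one length
  have h1 : ∀ T, T₀ ≤ T → ∃ w ∈ Icc W₀ W₁,
      ∑ q ∈ EB.QQ w, 1 / (q : ℝ) * ∫ x, F (fun k => rT (T / q) k x) ∂κ ≤
      ∑ q ∈ EB.QQ w, 1 / (q : ℝ) * ∫ x, F (fun k => rT T (q * k) x) ∂κ + ε := by
    intro T hT
    obtain ⟨X₀, hX⟩ := hfin T
    have h2 : ∀ᶠ k in atTop, ∃ w ∈ Icc W₀ W₁,
        ∑ q ∈ EB.QQ w, 1 / (q : ℝ) * ((∑ n ∈ Icc (Y k) (Z k),
          F (fun h => rh (fun n => (u n : ℝ)) (T / q) n h) / n) /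
            Real.log ((Z k : ℝ) / Y k)) ≤
        ∑ q ∈ EB.QQ w, 1 / (q : ℝ) * ((∑ n ∈ Icc (Y k) (Z k),
          F (fun h => rh (fun n => (u n : ℝ)) T n (q * h)) / n) /
            Real.log ((Z k : ℝ) / Y k)) + ε := by
      filter_upwards [hLt.eventually_ge_atTop X₀, hLt.eventually_gt_atTop 0] with k hk hk0
      obtain ⟨hY, hYX, hbig⟩ := hYZ k
      obtain ⟨w, hw0, hw1, hw⟩ := hX (wn (Y k) (Z k) hY hYX hbig) (by
        show X₀ ≤ Real.log (Z k) - Real.log (Y k)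
        rw [LL_eq hY hYX] at hk
        exact hk)
      refine ⟨w, mem_Icc.2 ⟨hw0, hw1⟩, ?_⟩
      have h3 := hw T hT le_rfl F hL hB
      have h4 : (wn (Y k) (Z k) hY hYX hbig).L = Real.log ((Z k : ℝ) / Y k) :=
        (LL_eq hY hYX).symm
      rw [h4] at h3
      have h5 : ∀ (g : ℕ → ℕ → ℝ), ∑ q ∈ EB.QQ w, 1 / (q : ℝ) *
          ((∑ n ∈ Icc (Y k) (Z k), g q n / n) / Real.log ((Z k : ℝ) / Y k)) =
          (∑ q ∈ EB.QQ w, 1 / (q : ℝ) * wlg (wn (Y k) (Z k) hY hYX hbig) (g q)) /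
            Real.log ((Z k : ℝ) / Y k) := by
        intro g
        rw [Finset.sum_div]
        exact Finset.sum_congr rfl fun q _ => by rw [mul_div_assoc]; rfl
      rw [h5 (fun q n => F (fun h => rh (fun n => (u n : ℝ)) (T / q) n h)),
        h5 (fun q n => F (fun h => rh (fun n => (u n : ℝ)) T n (q * h))),
        div_add' _ _ _ hk0.ne']
      exact div_le_div_of_nonneg_right h3 hk0.le
    obtain ⟨w, hw, h3⟩ := exists_frequently _ h2.frequently
    refine ⟨w, hw, ?_⟩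
    have h4 : Tendsto (fun k => ∑ q ∈ EB.QQ w, 1 / (q : ℝ) * ((∑ n ∈ Icc (Y k) (Z k),
          F (fun h => rh (fun n => (u n : ℝ)) (T / q) n h) / n) /
            Real.log ((Z k : ℝ) / Y k))) atTop
        (𝓝 (∑ q ∈ EB.QQ w, 1 / (q : ℝ) * ∫ x, F (fun k => rT (T / q) k x) ∂κ)) := by
      refine tendsto_finsetSum _ fun q _ => Tendsto.const_mul _ ?_
      have := lim_F hF hL (T / q) 1
      simpa only [one_mul] using this
    have h5 : Tendsto (fun k => ∑ q ∈ EB.QQ w, 1 / (q : ℝ) * ((∑ n ∈ Icc (Y k) (Z k),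
          F (fun h => rh (fun n => (u n : ℝ)) T n (q * h)) / n) /
            Real.log ((Z k : ℝ) / Y k)) + ε) atTop
        (𝓝 (∑ q ∈ EB.QQ w, 1 / (q : ℝ) * ∫ x, F (fun k => rT T (q * k) x) ∂κ + ε)) :=
      (tendsto_finsetSum _ fun q _ => Tendsto.const_mul _ (lim_F hF hL T q)).add_const _
    have h6 := h4.sub h5
    have h7 := le_of_tendsto_of_frequently h6 (h3.mono fun k hk => sub_nonpos.2 hk)
    linarith
  -- all lengths
  have h2 : ∀ᶠ T in atTop, ∃ w ∈ Icc W₀ W₁,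
      ∑ q ∈ EB.QQ w, 1 / (q : ℝ) * ∫ x, F (fun k => rT (T / q) k x) ∂κ ≤
      ∑ q ∈ EB.QQ w, 1 / (q : ℝ) * ∫ x, F (fun k => rT T (q * k) x) ∂κ + ε :=
    (eventually_ge_atTop T₀).mono h1
  obtain ⟨w, hw, h3⟩ := exists_frequently _ h2.frequently
  refine ⟨w, (mem_Icc.1 hw).1, ?_⟩
  have h4 : Tendsto (fun T : ℕ => ∑ q ∈ EB.QQ w, 1 / (q : ℝ) *
      ∫ x, F (fun k => rT (T / q) k x) ∂κ) atTop
      (𝓝 (∑ q ∈ EB.QQ w, 1 / (q : ℝ) * ∫ x, F (fun k => rx κ x k) ∂κ)) := by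
    refine tendsto_finsetSum _ fun q _ => ?_
    rcases Nat.eq_zero_or_pos q with h0 | h0
    · subst h0
      simp
    · refine Tendsto.const_mul _ ?_
      have h5 : Tendsto (fun T : ℕ => T / q) atTop atTop := Nat.tendsto_div_const_atTop h0.ne'
      have h6 := hL.tendsto hB κ (g := fun T k x => rT T k x) (g' := fun k x => rx κ x k)
        (fun T k => (rT_cont T k).measurable) (fun k => rx_meas κ k)
        (fun T k x => rT_le T k x) (fun k x => rx_le κ x k) (fun k => E1 κ hS k)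
      exact h6.comp h5
  have h5 : Tendsto (fun T : ℕ => ∑ q ∈ EB.QQ w, 1 / (q : ℝ) *
      ∫ x, F (fun k => rT T (q * k) x) ∂κ + ε) atTop
      (𝓝 (∑ q ∈ EB.QQ w, 1 / (q : ℝ) * ∫ x, F (fun k => rx κ x (q * k)) ∂κ + ε)) := by
    refine (tendsto_finsetSum _ fun q _ => Tendsto.const_mul _ ?_).add_const _
    exact hL.tendsto hB κ (g := fun T k x => rT T (q * k) x) (g' := fun k x => rx κ x (q * k))
      (fun T k => (rT_cont T _).measurable) (fun k => rx_meas κ _)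
      (fun T k x => rT_le T _ x) (fun k x => rx_le κ x _) (fun k => E1 κ hS _)
  have h6 := h4.sub h5
  have h7 := le_of_tendsto_of_frequently h6 (h3.mono fun k hk => sub_nonpos.2 hk)
  linarith

end Pool.Agent.H28.WN
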